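import Pool.Agent.H25TT.Sm

set_option autoImplicit false
set_option linter.unusedSectionVars false

/-! Products of powers of independent local functions with nearly normal moments. -/

namespace Pool.Agent.H25TT

open Finset
open Q282.CL
open Q282MM (gm)
open Q285HS (NearN)

variable {r : ℕ} {κ : Fin r → Type} [∀ i, Fintype (κ i)] [∀ i, DecidableEq (κ i)]

/-- the mean of a product of functions of different blocks -/
lemma av_prod {R : Type} [Fintype R] [DecidableEq R] [Nonempty R] (f : ∀ i, (κ i → R) → ℝ) :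
    av (fun u : (Σ i, κ i) → R => ∏ i, f i (fun x => u ⟨i, x⟩)) = ∏ i, av (f i) := by
  classical
  unfold av
  rw [prod_div_distrib]
  congr 1
  · rw [Finset.prod_univ_sum]
    have h2 : ∑ u : (Σ i, κ i) → R, ∏ i, f i (fun x => u ⟨i, x⟩) = ∑ v : (∀ i, κ i → R), ∏ i, f i (v i) :=
      Fintype.sum_equiv (Equiv.piCurry (fun (i : Fin r) (_ : κ i) => R)) _ _ (fun u => rfl)
    rw [h2]
    refine sum_congr ?_ fun _ _ => rfl
    ext
    simp
  · rw [← Nat.cast_prod]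
    congr 1
    rw [← Fintype.card_pi]
    exact Fintype.card_congr (Equiv.piCurry (fun (i : Fin r) (_ : κ i) => R))

lemma prod_close {ι : Type} (s : Finset ι) (x y : ι → ℝ) (B δ : ℝ) (hB : 1 ≤ B) (hx : ∀ i ∈ s, |x i| ≤ B) (hy : ∀ i ∈ s, |y i| ≤ B)
    (hxy : ∀ i ∈ s, |x i - y i| ≤ δ) (hδ : 0 ≤ δ) : |∏ i ∈ s, x i - ∏ i ∈ s, y i| ≤ s.card * B ^ s.card * δ := by
  classical
  induction s using Finset.induction_on with
  | empty => simp
  | insert a s ha ih =>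
    have ih' := ih (fun i hi => hx i (mem_insert_of_mem hi)) (fun i hi => hy i (mem_insert_of_mem hi)) (fun i hi => hxy i (mem_insert_of_mem hi))
    rw [prod_insert ha, prod_insert ha, card_insert_of_notMem ha]
    have e1 : x a * ∏ i ∈ s, x i - y a * ∏ i ∈ s, y i = x a * (∏ i ∈ s, x i - ∏ i ∈ s, y i) + (x a - y a) * ∏ i ∈ s, y i := by ring
    have e2 : |∏ i ∈ s, y i| ≤ B ^ s.card := by
      rw [abs_prod]
      refine (prod_le_prod (fun _ _ => abs_nonneg _) fun i hi => hy i (mem_insert_of_mem hi)).trans ?_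
      rw [prod_const]
    have e3 : 0 ≤ B ^ s.card := by positivity
    have e4 : B ^ s.card ≤ B ^ (s.card + 1) := pow_le_pow_right₀ hB (Nat.le_succ _)
    rw [e1]
    refine (abs_add_le _ _).trans ?_
    rw [abs_mul, abs_mul]
    have a1 : |x a| * |∏ i ∈ s, x i - ∏ i ∈ s, y i| ≤ B * (s.card * B ^ s.card * δ) :=
      mul_le_mul (hx a (mem_insert_self _ _)) ih' (abs_nonneg _) (by linarith)
    have a2 : |x a - y a| * |∏ i ∈ s, y i| ≤ δ * B ^ (s.card + 1) :=
      mul_le_mul (hxy a (mem_insert_self _ _)) (e2.trans e4) (abs_nonneg _) hδ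
    push_cast
    have e5 : ((s.card : ℝ) + 1) * B ^ (s.card + 1) * δ = B * (s.card * B ^ s.card * δ) + δ * B ^ (s.card + 1) := by ring
    rw [e5]
    linarith

lemma near_mono {κ : Type} [Fintype κ] [DecidableEq κ] {H : (p : ℕ) → (κ → ZMod p) → ℝ} {k β p₁ β' p₁' : ℕ} {K K' : ℝ} (h : NearN H k β p₁ K)
    (hK : K ≤ K') (hβ : β ≤ β') (hp : p₁ ≤ p₁') : NearN H k β' p₁' K' := by
  have hK1 := h.one
  refine ⟨hK1.trans hK, fun p hpr u => (h.bd p hpr u).trans ?_, fun p hpr hpp j hj => (h.mom p hpr (hp.trans hpp) j hj).trans ?_⟩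
  · have hp1 : (1 : ℝ) ≤ p := by exact_mod_cast hpr.one_lt.le
    exact mul_le_mul hK (pow_le_pow_right₀ hp1 hβ) (by positivity) (by linarith)
  · exact div_le_div_of_nonneg_right hK (Real.sqrt_nonneg _)

lemma uniform {T : ∀ i, (p : ℕ) → (κ i → ZMod p) → ℝ} (hT : ∀ i, ∃ (K : ℝ) (β p₁ : ℕ), NearN (T i) 4 β p₁ K) :
    ∃ (K : ℝ) (β p₁ : ℕ), 1 ≤ K ∧ ∀ i, NearN (T i) 4 β p₁ K := by
  choose K β p₁ h using hT
  have hK : ∀ i, 0 ≤ K i := fun i => by linarith [(h i).one]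
  refine ⟨1 + ∑ i, K i, ∑ i, β i, ∑ i, p₁ i, ?_, fun i => near_mono (h i) ?_ ?_ ?_⟩
  · have := sum_nonneg fun i (_ : i ∈ univ) => hK i
    linarith
  · have := single_le_sum (f := K) (fun j _ => hK j) (mem_univ i)
    linarith
  · exact single_le_sum (f := β) (fun j _ => Nat.zero_le _) (mem_univ i)
  · exact single_le_sum (f := p₁) (fun j _ => Nat.zero_le _) (mem_univ i)

/-- the product of the powers -/
noncomputable def MM (T : ∀ i, (p : ℕ) → (κ i → ZMod p) → ℝ) (e : Fin r → ℕ) (p : ℕ) (u : (Σ i, κ i) → ZMod p) : ℝ :=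
  ∏ i, T i p (fun x => u ⟨i, x⟩) ^ e i

lemma gm_le {j : ℕ} (hj : j ≤ 4) : (gm j : ℝ) ≤ 3 := by
  have : gm j ≤ 3 := by
    interval_cases j <;> decide
  exact_mod_cast this

lemma mn_MM (T : ∀ i, (p : ℕ) → (κ i → ZMod p) → ℝ) (e : Fin r → ℕ) (p : ℕ) (hp : p.Prime) :
    mn (MM T e) p = ∏ i, mn (fun p v => T i p v ^ e i) p := by
  have : Fact p.Prime := ⟨hp⟩
  rw [mn_eq]
  simp_rw [mn_eq]
  exact av_prod (R := ZMod p) fun i v => T i p v ^ e i

theorem small_MM {T : ∀ i, (p : ℕ) → (κ i → ZMod p) → ℝ} (hT : ∀ i, ∃ (K : ℝ) (β p₁ : ℕ), NearN (T i) 4 β p₁ K) (e : Fin r → ℕ) (he : ∀ i, e i ≤ 2) :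
    Small (fun p u => MM T e p u - ∏ i, (gm (e i) : ℝ)) := by
  obtain ⟨K, β, p₁, hK, h⟩ := uniform hT
  obtain ⟨B, hB⟩ : ∃ B : ℝ, B = 3 + K := ⟨_, rfl⟩
  have hB1 : 1 ≤ B := by linarith
  have hgm : ∀ j ≤ 4, |(gm j : ℝ)| ≤ B := fun j hj => by
    rw [Nat.abs_cast]
    have := gm_le hj
    linarith
  have hcl : ∀ p : ℕ, p.Prime → p₁ ≤ p → ∀ i, ∀ j ≤ 4, |mn (fun p v => T i p v ^ j) p| ≤ B := by
    intro p hp hpp i j hj
    have h1 := (h i).mom p hp hpp j hj
    have hp1 : (1 : ℝ) ≤ p := by exact_mod_cast hp.one_lt.le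
    have hs1 : 1 ≤ Real.sqrt p := Real.one_le_sqrt.2 hp1
    have h2 : K / Real.sqrt p ≤ K := div_le_self (by linarith) hs1
    have h3 := gm_le hj
    have h4 : (0 : ℝ) ≤ gm j := Nat.cast_nonneg _
    rw [abs_le] at h1 ⊢
    constructor <;> linarith [h1.1, h1.2]
  have hc : |∏ i, (gm (e i) : ℝ)| ≤ B ^ r := by
    rw [abs_prod]
    refine (prod_le_prod (fun _ _ => abs_nonneg _) fun i _ => hgm (e i) (by have := he i; omega)).trans ?_
    rw [prod_const, card_univ, Fintype.card_fin]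
  have hBr : 1 ≤ B ^ r := one_le_pow₀ hB1
  refine ⟨K ^ (2 * r) + r * B ^ r * K + 2 * B ^ r + 2 * (B ^ r) ^ 2 + 1, 2 * r * β, p₁, ?_, fun p hp u => ?_, fun p hp hpp => ?_, fun p hp hpp => ?_⟩
  · have : 0 ≤ K ^ (2 * r) + r * B ^ r * K + 2 * B ^ r + 2 * (B ^ r) ^ 2 := by positivity
    linarith
  · have hp1 : (1 : ℝ) ≤ p := by exact_mod_cast hp.one_lt.le
    have h1 : |MM T e p u| ≤ K ^ (2 * r) * (p : ℝ) ^ (2 * r * β) := by
      unfold MM
      rw [abs_prod]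
      have hKp : 1 ≤ K * (p : ℝ) ^ β := by
        have : (1 : ℝ) ≤ (p : ℝ) ^ β := one_le_pow₀ hp1
        nlinarith
      have h2 : ∀ i ∈ (univ : Finset (Fin r)), |T i p (fun x => u ⟨i, x⟩) ^ e i| ≤ (K * (p : ℝ) ^ β) ^ 2 := by
        intro i _
        rw [abs_pow]
        exact (pow_le_pow_left₀ (abs_nonneg _) ((h i).bd p hp _) _).trans (pow_le_pow_right₀ hKp (he i))
      refine (prod_le_prod (fun _ _ => abs_nonneg _) h2).trans (le_of_eq ?_)
      rw [prod_const, card_univ, Fintype.card_fin, mul_pow, mul_pow, ← pow_mul, ← pow_mul, ← pow_mul]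
      congr 2
      ring
    have h3 : (1 : ℝ) ≤ (p : ℝ) ^ (2 * r * β) := one_le_pow₀ hp1
    refine (abs_sub _ _).trans ?_
    have h4 : B ^ r ≤ B ^ r * (p : ℝ) ^ (2 * r * β) := le_mul_of_one_le_right (by linarith) h3
    have h5 : 0 ≤ (r * B ^ r * K + B ^ r + 2 * (B ^ r) ^ 2 + 1) * (p : ℝ) ^ (2 * r * β) := by positivity
    nlinarith
  · have h1 : mn (fun p u => MM T e p u - ∏ i, (gm (e i) : ℝ)) p = mn (MM T e) p - ∏ i, (gm (e i) : ℝ) := by
      have h2 := mn_add (MM T e) (fun _ _ => - ∏ i, (gm (e i) : ℝ)) p hp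
      have : Fact p.Prime := ⟨hp⟩
      have h3 : mn (fun (p : ℕ) (_ : (Σ i, κ i) → ZMod p) => - ∏ i, (gm (e i) : ℝ)) p = - ∏ i, (gm (e i) : ℝ) := by
        rw [mn_eq, av_const]
      rw [h3] at h2
      simp only [sub_eq_add_neg]
      exact h2
    rw [h1, mn_MM T e p hp]
    have hs : 0 < Real.sqrt p := Real.sqrt_pos.2 (by exact_mod_cast hp.pos)
    have h2 := prod_close (univ : Finset (Fin r)) (fun i => mn (fun p v => T i p v ^ e i) p) (fun i => (gm (e i) : ℝ)) B (K / Real.sqrt p) hB1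
      (fun i _ => hcl p hp hpp i (e i) (by have := he i; omega)) (fun i _ => hgm (e i) (by have := he i; omega))
      (fun i _ => (h i).mom p hp hpp (e i) (by have := he i; omega)) (by positivity)
    rw [card_univ, Fintype.card_fin] at h2
    refine h2.trans ?_
    rw [← mul_div_assoc]
    refine div_le_div_of_nonneg_right ?_ hs.le
    have h5 : 0 ≤ K ^ (2 * r) + 2 * B ^ r + 2 * (B ^ r) ^ 2 + 1 := by positivity
    linarith
  · have h1 : mn (fun p u => (MM T e p u - ∏ i, (gm (e i) : ℝ)) ^ 2) p ≤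
        mn (fun p u => (fun _ => (2 : ℝ)) p * MM T (fun i => 2 * e i) p u + 2 * (∏ i, (gm (e i) : ℝ)) ^ 2) p := by
      refine mn_mono _ _ p hp fun u => ?_
      have h2 : MM T (fun i => 2 * e i) p u = MM T e p u ^ 2 := by
        unfold MM
        rw [← prod_pow]
        exact prod_congr rfl fun i _ => by rw [← pow_mul, mul_comm]
      show _ ≤ 2 * MM T (fun i => 2 * e i) p u + _
      rw [h2]
      nlinarith [sq_nonneg (MM T e p u + ∏ i, (gm (e i) : ℝ))]
    refine h1.trans ?_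
    rw [mn_add (fun p u => (fun _ => (2 : ℝ)) p * MM T (fun i => 2 * e i) p u) (fun _ _ => 2 * (∏ i, (gm (e i) : ℝ)) ^ 2) p hp,
      mn_smul (fun _ => (2 : ℝ)) _ p hp, mn_MM T _ p hp]
    have : Fact p.Prime := ⟨hp⟩
    have h3 : mn (fun (p : ℕ) (_ : (Σ i, κ i) → ZMod p) => 2 * (∏ i, (gm (e i) : ℝ)) ^ 2) p = 2 * (∏ i, (gm (e i) : ℝ)) ^ 2 := by
      rw [mn_eq, av_const]
    rw [h3]
    have h4 : |∏ i, mn (fun p v => T i p v ^ (2 * e i)) p| ≤ B ^ r := by
      rw [abs_prod]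
      refine (prod_le_prod (fun _ _ => abs_nonneg _) fun i _ => hcl p hp hpp i (2 * e i) (by have := he i; omega)).trans ?_
      rw [prod_const, card_univ, Fintype.card_fin]
    have h5 := (le_abs_self _).trans h4
    have h6 : (∏ i, (gm (e i) : ℝ)) ^ 2 ≤ (B ^ r) ^ 2 := by
      rw [← sq_abs]
      exact pow_le_pow_left₀ (abs_nonneg _) hc 2
    have h7 : 0 ≤ K ^ (2 * r) + r * B ^ r * K + 1 := by positivity
    linarith

end Pool.Agent.H25TT
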