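import Pool.Agent.H25TT.Loc
import Pool.Agent.H25TT.Prod
import Pool.Agent.H25CC.Cnt
import Pool.Agent.Y722.HS.Bad

set_option autoImplicit false
set_option linter.unusedSectionVars false

/-! Cyclic covers of projective spaces of any dimension: the normalised traces, and the primes of bad reduction. -/

namespace Pool.Agent.H25TT

open Finset MvPolynomial
open Q282.CL
open Q282MM (gm)
open Pool.Agent.Y722.HS (Mon form IsSmooth)
open Q285HS (NearN FewBad points AA)
open Pool.Agent.H25CC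
open scoped LinearAlgebra.Projectivization

/-- the normalised trace -/
noncomputable def ZZ (n m δ p : ℕ) (v : Mon n δ → ZMod p) : ℝ :=
  HC (d := fun _ : Unit => δ) (fun _ : Unit => (1 : MvPolynomial (Fin (n + 1)) ℤ)) ∅ m n p
    (fun i => v ((Equiv.uniqueSigma fun _ : Unit => Mon n δ) i))

lemma ZZ_near (n m δ : ℕ) (hn : 1 ≤ n) (hm : 2 ≤ m) (hδ : 3 ≤ δ) : ∃ (K : ℝ) (β p₁ : ℕ), NearN (ZZ n m δ) 4 β p₁ K := by
  obtain ⟨K, p₁, hN⟩ := near_cov1 (d := fun _ : Unit => δ) m hm hn (Q285HS.sz_proj (n := n) hn) 4 δ hδ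
    (fun _ => le_rfl) (by omega) (fun i h1 h2 => by omega)
  exact ⟨K, n + 1, p₁, Q285HS.near_equiv (Equiv.uniqueSigma fun _ : Unit => Mon n δ) hN⟩

lemma nr_one (p m : ℕ) [hp : Fact p.Prime] (hm : 1 ≤ m) (hg : Nat.gcd (p - 1) m = 1) (v : ZMod p) : nr m p v = 1 := by
  have h1 := cf_sq m p hm
  rw [hg, Nat.cast_one, sub_self, zero_div, zero_mul] at h1
  unfold av at h1
  rw [div_eq_zero_iff] at h1
  have h2 : (Fintype.card (ZMod p) : ℝ) ≠ 0 := by
    rw [ZMod.card]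
    exact_mod_cast hp.out.ne_zero
  have h3 := h1.resolve_right h2
  rw [sum_eq_zero_iff_of_nonneg (fun _ _ => sq_nonneg _)] at h3
  have h4 := pow_eq_zero_iff two_ne_zero |>.1 (h3 v (mem_univ v))
  unfold cf at h4
  rw [div_eq_zero_iff] at h4
  have h5 : (m : ℝ) ≠ 0 := by exact_mod_cast (by omega : m ≠ 0)
  have h6 := h4.resolve_right h5
  have h7 : (nr m p v : ℝ) = 1 := by linarith
  exact_mod_cast h7

/-- the number of the points of the cover and the normalised trace -/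
lemma ZZ_trace (n m δ p : ℕ) [hp : Fact p.Prime] (hm : 2 ≤ m) (t : Mon n δ → ℤ) :
    (Nat.card {x : ℙ (ZMod p) (Fin (n + 1) → ZMod p) × ZMod p // x.2 ^ m = aeval x.1.rep (form t)} : ℝ) -
      (Nat.card (ℙ (ZMod p) (Fin (n + 1) → ZMod p)) : ℝ) =
      Real.sqrt ((Nat.gcd m (p - 1) : ℝ) - 1) * Real.sqrt p ^ n * ZZ n m δ p (fun x => (t x : ZMod p)) := by
  classical
  have hfam : Q285HS.fam (d := fun _ : Unit => δ) (fun _ : Unit => (1 : MvPolynomial (Fin (n + 1)) ℤ))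
      (fun x : Q285HS.Idx n (fun _ : Unit => δ) => t x.2) = form t := by
    unfold Q285HS.fam Pool.Agent.Y722.HS.form
    simp
  have hc : (Nat.card {x : ℙ (ZMod p) (Fin (n + 1) → ZMod p) × ZMod p // x.2 ^ m = aeval x.1.rep (form t)}) =
      Nat.card {x : ℙ (ZMod p) (Fin (n + 1) → ZMod p) × ZMod p // (∀ G ∈ (∅ : Set (MvPolynomial (Fin (n + 1)) ℤ)), aeval x.1.rep G = 0) ∧
        x.2 ^ m = aeval x.1.rep (Q285HS.fam (d := fun _ : Unit => δ) (fun _ : Unit => (1 : MvPolynomial (Fin (n + 1)) ℤ))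
          (fun x : Q285HS.Idx n (fun _ : Unit => δ) => t x.2))} := by
    rw [hfam]
    refine Nat.card_congr (Equiv.subtypeEquivRight fun x => ?_)
    simp
  have hpt : Nat.card (ℙ (ZMod p) (Fin (n + 1) → ZMod p)) = points p (∅ : Set (MvPolynomial (Fin (n + 1)) ℤ)) := by
    unfold Q285HS.points
    rw [dif_pos hp.out]
    refine Nat.card_congr ((Equiv.subtypeUnivEquiv fun x => ?_).symm)
    simp
  rw [hc, hpt]
  have hp0 : (0 : ℝ) < p := by exact_mod_cast hp.out.pos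
  rcases Nat.lt_or_ge 1 (Nat.gcd m (p - 1)) with hg | hg
  · have h1 := HC_trace (g := fun _ : Unit => (1 : MvPolynomial (Fin (n + 1)) ℤ)) (W := ∅) m n p hm hg
      (fun x : Q285HS.Idx n (fun _ : Unit => δ) => t x.2)
    have h2 : (0 : ℝ) < (Nat.gcd m (p - 1) : ℝ) - 1 := by
      have : (1 : ℝ) < Nat.gcd m (p - 1) := by exact_mod_cast hg
      linarith
    have h3 : 0 < Real.sqrt ((Nat.gcd m (p - 1) : ℝ) - 1) * Real.sqrt p ^ n := by
      have := Real.sqrt_pos.2 h2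
      have := Real.sqrt_pos.2 hp0
      positivity
    rw [div_eq_iff h3.ne'] at h1
    rw [h1, mul_comm]
    rfl
  · have hg0 : 0 < Nat.gcd m (p - 1) := Nat.gcd_pos_of_pos_left _ (by omega)
    have hg1 : Nat.gcd m (p - 1) = 1 := by omega
    rw [hg1, Nat.cast_one, sub_self, Real.sqrt_zero, zero_mul, zero_mul]
    rw [cover_card (g := fun _ : Unit => (1 : MvPolynomial (Fin (n + 1)) ℤ)) (W := ∅) p m (by omega)
      (fun x : Q285HS.Idx n (fun _ : Unit => δ) => t x.2)]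
    refine sum_eq_zero fun P _ => ?_
    rw [nr_one p m (by omega) (by rw [Nat.gcd_comm]; exact hg1)]
    simp

/-- the branch divisor is singular or `p` divides the degree -/
def Bd (n m δ p : ℕ) : Set (Mon n δ → ZMod p) :=
  {u | p ∣ m ∨ ¬ ∀ _ : Fact p.Prime, IsSmooth (map (algebraMap (ZMod p) (AlgebraicClosure (ZMod p))) (form u))}

lemma few_bd (n m δ : ℕ) (hm : 2 ≤ m) (hδ : 3 ≤ δ) : ∃ (q₀ : ℕ) (C₀ : ℝ), FewBad (Bd n m δ) q₀ C₀ := by
  refine ⟨max (δ + 1) (m + 1), (Pool.Agent.Y722.HS.Delta n δ).totalDegree, ?_⟩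
  intro p hp hpp
  have : Fact p.Prime := ⟨hp⟩
  have hp0 : (0 : ℝ) < p := by exact_mod_cast hp.pos
  have hpδ : δ + 1 ≤ p := (le_max_left _ _).trans hpp
  have hpm : m + 1 ≤ p := (le_max_right _ _).trans hpp
  have h1 := Pool.Agent.Y722.HS.card_bad n δ p (fun h => by
    have := Nat.le_of_dvd (by omega) h
    omega)
  have h2 : (Bd n m δ p).ncard ≤ Nat.card {c : Mon n δ → ZMod p // Pool.Agent.Y722.HS.IsBad p c} := by
    have h3 : Nat.card {c : Mon n δ → ZMod p // Pool.Agent.Y722.HS.IsBad p c} = ({c | Pool.Agent.Y722.HS.IsBad p c} : Set (Mon n δ → ZMod p)).ncard := rfl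
    rw [h3]
    refine Set.ncard_le_ncard ?_ (Set.toFinite _)
    intro u hu
    by_contra hnb
    rcases hu with hu | hu
    · have := Nat.le_of_dvd (by omega) hu
      omega
    · exact hu fun _ => Pool.Agent.Y722.HS.isSmooth_of_not_isBad p (by omega) u hnb
  have h3 : ((Bd n m δ p).ncard : ℝ) ≤ (Nat.card {c : Mon n δ → ZMod p // Pool.Agent.Y722.HS.IsBad p c} : ℝ) := by exact_mod_cast h2
  rw [div_mul_eq_mul_div, le_div_iff₀ hp0]
  exact le_trans (mul_le_mul_of_nonneg_right h3 hp0.le) h1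

end Pool.Agent.H25TT
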