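import Pool.Agent.H25TT.Sm

set_option autoImplicit false
set_option linter.unusedSectionVars false

/-! Sums of small local functions with the weight `log p`. -/

namespace Pool.Agent.H25TT

open Finset
open Q282.CL
open Q282.GK (kbox)
open Q285HS (FewBad IV lln)

lemma log_eq (p : ℕ) (hp : 1 ≤ p) : Real.log p = ∑ j ∈ Ico 1 p, (Real.log ((j + 1 : ℕ) : ℝ) - Real.log (j : ℝ)) := by
  obtain ⟨q, rfl⟩ : ∃ q, p = q + 1 := ⟨p - 1, by omega⟩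
  rw [sum_Ico_eq_sum_range, Nat.add_sub_cancel]
  have h1 := sum_range_sub (fun i : ℕ => Real.log ((1 + i : ℕ) : ℝ)) q
  simp only [add_zero, Nat.cast_one, Real.log_one, sub_zero] at h1
  rw [add_comm q 1, ← h1]
  refine sum_congr rfl fun i _ => ?_
  rw [add_assoc]

lemma abel (f : ℕ → ℝ) (Y : ℕ) (B : ℝ) (hY : 1 ≤ Y) (h : ∀ y ≤ Y, |∑ p ∈ Ioc y Y, f p| ≤ B) :
    |∑ p ∈ Ioc 0 Y, f p * Real.log p| ≤ B * Real.log Y := by
  have e2 : ∑ p ∈ Ioc 0 Y, f p * Real.log p =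
      ∑ j ∈ Ico 1 Y, (Real.log ((j + 1 : ℕ) : ℝ) - Real.log (j : ℝ)) * ∑ p ∈ Ioc j Y, f p := by
    calc ∑ p ∈ Ioc 0 Y, f p * Real.log p = ∑ p ∈ Ioc 0 Y, ∑ j ∈ Ico 1 p, (Real.log ((j + 1 : ℕ) : ℝ) - Real.log (j : ℝ)) * f p := by
          refine sum_congr rfl fun p hp => ?_
          rw [mem_Ioc] at hp
          rw [log_eq p (by omega), mul_comm, sum_mul]
      _ = ∑ j ∈ Ico 1 Y, ∑ p ∈ Ioc j Y, (Real.log ((j + 1 : ℕ) : ℝ) - Real.log (j : ℝ)) * f p := by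
          refine sum_comm' fun p j => ?_
          simp only [mem_Ioc, mem_Ico]
          omega
      _ = _ := sum_congr rfl fun j _ => (mul_sum _ _ _).symm
  rw [e2, log_eq Y hY, mul_sum]
  refine (abs_sum_le_sum_abs _ _).trans (sum_le_sum fun j hj => ?_)
  rw [mem_Ico] at hj
  have hd : 0 ≤ Real.log ((j + 1 : ℕ) : ℝ) - Real.log (j : ℝ) := by
    rw [sub_nonneg]
    refine Real.log_le_log (by exact_mod_cast hj.1) ?_
    push_cast
    linarith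
  rw [abs_mul, abs_of_nonneg hd, mul_comm]
  exact mul_le_mul_of_nonneg_right (h j hj.2.le) hd

variable {κ : Type} [Fintype κ] [DecidableEq κ]

open Classical in
/-- **the law of large numbers with the weight `log p`** -/
theorem small_law {G : (p : ℕ) → (κ → ZMod p) → ℝ} (hG : Small G) (ε : ℝ) (hε : 0 < ε) (hε1 : ε ≤ 1) :
    ∃ κ₀ : ℝ, 0 < κ₀ ∧ ∃ C : ℝ, 1 ≤ C ∧ ∀ (𝒮 : Finset (Set ℕ)) (N : κ → ℤ) (L : κ → ℕ) (T : ℝ), 0 < T → (∀ i, T ≤ L i) →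
      ∀ X₀ : ℕ, 1 ≤ X₀ → ∃ E : Finset (κ → ℤ), (E.card : ℝ) ≤ C * 𝒮.card * (X₀ : ℝ) ^ (-(ε / 2)) * ∏ i, (L i : ℝ) ∧
      ∀ t ∈ kbox N L, t ∉ E → ∀ S ∈ 𝒮, ∀ Y : ℕ, X₀ ≤ Y → (Y : ℝ) ≤ T ^ κ₀ →
        |∑ p ∈ (IV 0 Y).filter (· ∈ S), G p (fun i => (t i : ZMod p)) * Real.log p| ≤ C * (Y : ℝ) ^ (1 / 2 + ε) := by
  obtain ⟨K, β, p₀, hK, h1, h2, h3⟩ := hG
  obtain ⟨κ₀, hκ₀, C, hC, h⟩ := lln G β p₀ K 0 hK h1 (fun p hp hpp => by rw [sub_zero]; exact h2 p hp hpp) h3 ε hε hε1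
  have hC2 : C ≤ C + C * (2 / ε) := by
    have : 0 ≤ C * (2 / ε) := by positivity
    linarith
  refine ⟨κ₀, hκ₀, C + C * (2 / ε), by linarith, fun 𝒮 N L T hT hTL X₀ hX₀ => ?_⟩
  choose E hE1 hE2 hE3 using fun S : Set ℕ => h (fun p => if p ∈ S then (1 : ℝ) else 0) (fun p => by
    show |if p ∈ S then (1 : ℝ) else 0| ≤ 1
    split_ifs <;> simp) N L T hT hTL X₀ hX₀
  refine ⟨𝒮.biUnion E, ?_, ?_⟩
  · refine le_trans (Nat.cast_le.2 card_biUnion_le) ?_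
    push_cast
    have h0 : 0 ≤ (X₀ : ℝ) ^ (-(ε / 2)) * ∏ i, (L i : ℝ) := by positivity
    calc ∑ S ∈ 𝒮, ((E S).card : ℝ) ≤ ∑ S ∈ 𝒮, C * (X₀ : ℝ) ^ (-(ε / 2)) * ∏ i, (L i : ℝ) := sum_le_sum fun S _ => hE2 S
      _ = C * (𝒮.card * ((X₀ : ℝ) ^ (-(ε / 2)) * ∏ i, (L i : ℝ))) := by rw [sum_const, nsmul_eq_mul]; ring
      _ ≤ (C + C * (2 / ε)) * (𝒮.card * ((X₀ : ℝ) ^ (-(ε / 2)) * ∏ i, (L i : ℝ))) := mul_le_mul_of_nonneg_right hC2 (by positivity)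
      _ = _ := by ring
  · intro t ht hnt S hS Y hY hYT
    rw [mem_biUnion] at hnt
    push Not at hnt
    have hY1 : 1 ≤ Y := hX₀.trans hY
    have hYR : (1 : ℝ) ≤ Y := by exact_mod_cast hY1
    have key := abel (fun p => if p.Prime ∧ p ∈ S then G p (fun i => (t i : ZMod p)) else 0) Y (C * (Y : ℝ) ^ (1 / 2 + ε / 2)) hY1 (fun y hy => by
      have h4 := hE3 S t ht (hnt S hS) y Y hy hY hYT
      have h5 : ∑ p ∈ IV y Y, (if p ∈ S then (1 : ℝ) else 0) * (G p (fun i => (t i : ZMod p)) - 0) =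
          ∑ p ∈ Ioc y Y, if p.Prime ∧ p ∈ S then G p (fun i => (t i : ZMod p)) else 0 := by
        unfold Q285HS.IV
        rw [sum_filter]
        refine sum_congr rfl fun p _ => ?_
        by_cases hp : p.Prime <;> by_cases hpS : p ∈ S <;> simp [hp, hpS]
      rw [h5] at h4
      exact h4)
    have h6 : ∑ p ∈ (IV 0 Y).filter (· ∈ S), G p (fun i => (t i : ZMod p)) * Real.log p =
        ∑ p ∈ Ioc 0 Y, (if p.Prime ∧ p ∈ S then G p (fun i => (t i : ZMod p)) else 0) * Real.log p := by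
      unfold Q285HS.IV
      rw [filter_filter, sum_filter]
      refine sum_congr rfl fun p _ => ?_
      by_cases hp : p.Prime <;> by_cases hpS : p ∈ S <;> simp [hp, hpS]
    rw [h6]
    refine key.trans ?_
    have h7 : Real.log Y ≤ (Y : ℝ) ^ (ε / 2) / (ε / 2) := Real.log_le_rpow_div (by linarith) (by positivity)
    have h8 : (Y : ℝ) ^ (1 / 2 + ε) = (Y : ℝ) ^ (1 / 2 + ε / 2) * (Y : ℝ) ^ (ε / 2) := by
      rw [← Real.rpow_add (by linarith)]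
      congr 1
      ring
    have h9 : 0 ≤ (Y : ℝ) ^ (1 / 2 + ε / 2) := by positivity
    have h10 : 0 ≤ (Y : ℝ) ^ (ε / 2) := by positivity
    calc C * (Y : ℝ) ^ (1 / 2 + ε / 2) * Real.log Y ≤ C * (Y : ℝ) ^ (1 / 2 + ε / 2) * ((Y : ℝ) ^ (ε / 2) / (ε / 2)) :=
          mul_le_mul_of_nonneg_left h7 (by positivity)
      _ = (C * (2 / ε)) * (Y : ℝ) ^ (1 / 2 + ε) := by
          rw [h8]
          field_simp
      _ ≤ _ := mul_le_mul_of_nonneg_right (by linarith) (by positivity)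

end Pool.Agent.H25TT
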