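import Pool.Agent.H25TT.Cov
import Pool.Agent.H25TT.Log

set_option autoImplicit false
set_option linter.unusedSectionVars false

/-! Products of powers of cyclic covers: the local function. -/

namespace Pool.Agent.H25TT

open Finset MvPolynomial
open Q282.CL
open Q282MM (gm)
open Q282.GK (kbox)
open Pool.Agent.Y722.HS (Mon form IsSmooth)
open Q285HS (NearN FewBad IV)
open Pool.Agent.H25CC
open scoped LinearAlgebra.Projectivization

section few

variable {r : ℕ} {κ : Fin r → Type} [∀ i, Fintype (κ i)] [∀ i, DecidableEq (κ i)]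

lemma few_sigma (Bad : ∀ i, (p : ℕ) → Set (κ i → ZMod p)) (h : ∀ i, ∃ (q₀ : ℕ) (C₀ : ℝ), FewBad (Bad i) q₀ C₀) :
    ∃ (q₀ : ℕ) (C₀ : ℝ), FewBad (fun p => {u : (Σ i, κ i) → ZMod p | ∃ i, (fun x => u ⟨i, x⟩) ∈ Bad i p}) q₀ C₀ := by
  classical
  choose q C h using h
  refine ⟨∑ i, q i, ∑ i, |C i|, fun p hp hpp => ?_⟩
  have : Fact p.Prime := ⟨hp⟩
  have hp0 : (0 : ℝ) < p := by exact_mod_cast hp.pos
  have h1 : ∀ i, ((univ.filter fun u : (Σ i, κ i) → ZMod p => (fun x => u ⟨i, x⟩) ∈ Bad i p).card : ℝ) ≤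
      |C i| / p * (p : ℝ) ^ Fintype.card (Σ i, κ i) := by
    intro i
    have h2 := av_prod (R := ZMod p) (κ := κ) (fun j v => if (j = i → v ∈ Bad j p) then (1 : ℝ) else 0)
    have h3 : (fun u : (Σ i, κ i) → ZMod p => ∏ j, if (j = i → (fun x => u ⟨j, x⟩) ∈ Bad j p) then (1 : ℝ) else 0) =
        fun u => if (fun x => u ⟨i, x⟩) ∈ Bad i p then (1 : ℝ) else 0 := by
      funext u
      by_cases hu : (fun x => u ⟨i, x⟩) ∈ Bad i p
      · rw [if_pos hu]
        refine prod_eq_one fun j _ => ?_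
        rw [if_pos]
        intro hj
        subst hj
        exact hu
      · rw [if_neg hu]
        exact prod_eq_zero (mem_univ i) (if_neg fun h' => hu (h' rfl))
    rw [h3] at h2
    have h4 : ∏ j, av (fun v : κ j → ZMod p => if (j = i → v ∈ Bad j p) then (1 : ℝ) else 0) =
        av (fun v : κ i → ZMod p => if v ∈ Bad i p then (1 : ℝ) else 0) := by
      rw [prod_eq_single i]
      · congr 1
        funext v
        simp
      · intro j _ hj
        have h5 : (fun v : κ j → ZMod p => if (j = i → v ∈ Bad j p) then (1 : ℝ) else 0) = fun _ => 1 := by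
          funext v
          rw [if_pos fun h' => absurd h' hj]
        rw [h5, av_const]
      · intro h'
        exact absurd (mem_univ _) h'
    rw [h4] at h2
    have h6 : av (fun v : κ i → ZMod p => if v ∈ Bad i p then (1 : ℝ) else 0) ≤ |C i| / p := by
      unfold av
      rw [Fintype.card_fun, ZMod.card, Nat.cast_pow, div_le_iff₀ (by positivity)]
      have h7 : (∑ v : κ i → ZMod p, if v ∈ Bad i p then (1 : ℝ) else 0) = ((Bad i p).ncard : ℝ) := by
        rw [sum_ite, sum_const_zero, add_zero, sum_const, nsmul_eq_mul, mul_one, Set.ncard_eq_toFinset_card', Set.toFinset]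
        congr 2
        ext u
        simp
      rw [h7]
      refine (h i p hp ((single_le_sum (f := q) (fun j _ => Nat.zero_le _) (mem_univ i)).trans hpp)).trans ?_
      have := le_abs_self (C i)
      gcongr
    rw [← h2] at h6
    unfold av at h6
    rw [Fintype.card_fun, ZMod.card, Nat.cast_pow, div_le_iff₀ (by positivity)] at h6
    refine le_trans (le_of_eq ?_) h6
    rw [sum_ite, sum_const_zero, add_zero, sum_const, nsmul_eq_mul, mul_one]
  have h8 : (({u : (Σ i, κ i) → ZMod p | ∃ i, (fun x => u ⟨i, x⟩) ∈ Bad i p}).ncard : ℝ) ≤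
      ∑ i, ((univ.filter fun u : (Σ i, κ i) → ZMod p => (fun x => u ⟨i, x⟩) ∈ Bad i p).card : ℝ) := by
    rw [← Nat.cast_sum, Nat.cast_le]
    refine le_trans ?_ (card_biUnion_le (s := (univ : Finset (Fin r)))
      (t := fun i => univ.filter fun u : (Σ i, κ i) → ZMod p => (fun x => u ⟨i, x⟩) ∈ Bad i p))
    rw [← Set.ncard_coe_finset]
    refine Set.ncard_le_ncard ?_ (Finset.finite_toSet _)
    rintro u ⟨i, hi⟩
    rw [mem_coe, mem_biUnion]
    exact ⟨i, mem_univ _, by rw [mem_filter]; exact ⟨mem_univ _, hi⟩⟩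
  refine h8.trans ((sum_le_sum fun i _ => h1 i).trans (le_of_eq ?_))
  rw [← sum_mul, ← sum_div]

variable (T : ∀ i, (p : ℕ) → (κ i → ZMod p) → ℝ)

lemma MM_single (i : Fin r) (a p : ℕ) (u : (Σ i, κ i) → ZMod p) : MM T (Pi.single i a) p u = T i p (fun x => u ⟨i, x⟩) ^ a := by
  unfold MM
  rw [prod_eq_single i]
  · rw [Pi.single_eq_same]
  · intro j _ hj
    rw [Pi.single_eq_of_ne hj, pow_zero]
  · intro h
    exact absurd (mem_univ _) h

lemma MM_add (e e' : Fin r → ℕ) (p : ℕ) (u : (Σ i, κ i) → ZMod p) : MM T (e + e') p u = MM T e p u * MM T e' p u := by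
  unfold MM
  rw [← prod_mul_distrib]
  exact prod_congr rfl fun i _ => by rw [Pi.add_apply, pow_add]

lemma gm_one_zero (e : Fin r → ℕ) (i : Fin r) (hi : e i = 1) : ∏ j, (gm (e j) : ℝ) = 0 := by
  refine prod_eq_zero (mem_univ i) ?_
  rw [hi]
  have : gm 1 = 0 := by decide
  rw [this, Nat.cast_zero]

lemma gm_two (i : Fin r) : ∏ j, (gm ((Pi.single i 2 : Fin r → ℕ) j) : ℝ) = 1 := by
  refine prod_eq_one fun j _ => ?_
  by_cases hj : j = i
  · subst hj
    rw [Pi.single_eq_same]
    have : gm 2 = 1 := by decide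
    rw [this, Nat.cast_one]
  · rw [Pi.single_eq_of_ne hj]
    have : gm 0 = 1 := by decide
    rw [this, Nat.cast_one]

end few

section main

variable {r : ℕ} (n m δ k : Fin r → ℕ)

/-- the root of `gcd (m, p - 1) - 1` -/
noncomputable def ss (m p : ℕ) : ℝ := Real.sqrt ((Nat.gcd m (p - 1) : ℝ) - 1)

lemma ss_nonneg (m p : ℕ) : 0 ≤ ss m p := Real.sqrt_nonneg _

lemma ss_le (m p : ℕ) (hm : 1 ≤ m) : ss m p ≤ m := by
  unfold ss
  have h1 : (Nat.gcd m (p - 1) : ℝ) ≤ m := by exact_mod_cast Nat.gcd_le_left _ (by omega)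
  have h2 : (1 : ℝ) ≤ m := by exact_mod_cast hm
  refine Real.sqrt_le_iff.2 ⟨by linarith, ?_⟩
  nlinarith

lemma ss_sq (m p : ℕ) (hm : 1 ≤ m) : ss m p ^ 2 = (Nat.gcd m (p - 1) : ℝ) - 1 := by
  unfold ss
  have h1 : (1 : ℝ) ≤ (Nat.gcd m (p - 1) : ℝ) := by
    exact_mod_cast Nat.gcd_pos_of_pos_left _ hm
  exact Real.sq_sqrt (by linarith)

/-- the function of the trace -/
noncomputable def GG (p : ℕ) (u : (Σ i, Mon (n i) (δ i)) → ZMod p) : ℝ :=
  (∑ i, (if n i = 2 then (k i : ℝ) * ss (m i) p else 0) * ZZ (n i) (m i) (δ i) p (fun x => u ⟨i, x⟩)) +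
  (∑ i, (if n i = 1 then ((k i).choose 2 : ℝ) * ss (m i) p ^ 2 else 0) * (ZZ (n i) (m i) (δ i) p (fun x => u ⟨i, x⟩) ^ 2 - 1)) +
  ∑ i, ∑ j, (if i < j ∧ n i = 1 ∧ n j = 1 then (k i : ℝ) * k j * ss (m i) p * ss (m j) p else 0) *
    (ZZ (n i) (m i) (δ i) p (fun x => u ⟨i, x⟩) * ZZ (n j) (m j) (δ j) p (fun x => u ⟨j, x⟩))

theorem small_GG (hn : ∀ i, 1 ≤ n i) (hm : ∀ i, 2 ≤ m i) (hδ : ∀ i, 3 ≤ δ i) : Small (GG n m δ k) := by
  classical
  obtain ⟨T, hT⟩ : ∃ T : ∀ i, (p : ℕ) → (Mon (n i) (δ i) → ZMod p) → ℝ, T = fun i => ZZ (n i) (m i) (δ i) := ⟨_, rfl⟩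
  have hN : ∀ i, ∃ (K : ℝ) (β p₁ : ℕ), NearN (T i) 4 β p₁ K := fun i => by
    rw [hT]
    exact ZZ_near (n i) (m i) (δ i) (hn i) (hm i) (hδ i)
  have h1 : ∀ i : Fin r, Small (fun p (u : (Σ i, Mon (n i) (δ i)) → ZMod p) =>
      (if n i = 2 then (k i : ℝ) * ss (m i) p else 0) * ZZ (n i) (m i) (δ i) p (fun x => u ⟨i, x⟩)) := by
    intro i
    have h2 := (small_MM hN (Pi.single i 1) (fun j => by
      by_cases hj : j = i
      · subst hj
        rw [Pi.single_eq_same]
        omega
      · rw [Pi.single_eq_of_ne hj]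
        omega)).smul (fun p => if n i = 2 then (k i : ℝ) * ss (m i) p else 0) (k i * m i + 1) (by
          have : (0 : ℝ) ≤ k i * m i := by positivity
          linarith) (fun p => by
          have h3 := ss_le (m i) p (by have := hm i; omega)
          have h4 := ss_nonneg (m i) p
          have h5 : (0 : ℝ) ≤ k i := Nat.cast_nonneg _
          show |if n i = 2 then (k i : ℝ) * ss (m i) p else 0| ≤ _
          split_ifs
          · rw [abs_of_nonneg (by positivity)]
            nlinarith [mul_le_mul_of_nonneg_left h3 h5]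
          · rw [abs_zero]
            positivity)
    have h3 : (fun p (u : (Σ i, Mon (n i) (δ i)) → ZMod p) => (if n i = 2 then (k i : ℝ) * ss (m i) p else 0) *
        (MM T (Pi.single i 1) p u - ∏ j, (gm ((Pi.single i 1 : Fin r → ℕ) j) : ℝ))) =
        fun p u => (if n i = 2 then (k i : ℝ) * ss (m i) p else 0) * ZZ (n i) (m i) (δ i) p (fun x => u ⟨i, x⟩) := by
      funext p u
      rw [gm_one_zero _ i (Pi.single_eq_same i 1), sub_zero, MM_single, pow_one, hT]
    rw [← h3]
    exact h2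
  have h4 : ∀ i : Fin r, Small (fun p (u : (Σ i, Mon (n i) (δ i)) → ZMod p) =>
      (if n i = 1 then ((k i).choose 2 : ℝ) * ss (m i) p ^ 2 else 0) * (ZZ (n i) (m i) (δ i) p (fun x => u ⟨i, x⟩) ^ 2 - 1)) := by
    intro i
    have h2 := (small_MM hN (Pi.single i 2) (fun j => by
      by_cases hj : j = i
      · subst hj
        rw [Pi.single_eq_same]
      · rw [Pi.single_eq_of_ne hj]
        omega)).smul (fun p => if n i = 1 then ((k i).choose 2 : ℝ) * ss (m i) p ^ 2 else 0) (((k i).choose 2 : ℝ) * (m i : ℝ) ^ 2 + 1) (by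
          have : (0 : ℝ) ≤ ((k i).choose 2 : ℝ) * (m i : ℝ) ^ 2 := by positivity
          linarith) (fun p => by
          have h3 := pow_le_pow_left₀ (ss_nonneg (m i) p) (ss_le (m i) p (by have := hm i; omega)) 2
          have h4 := ss_nonneg (m i) p
          have h5 : (0 : ℝ) ≤ ((k i).choose 2 : ℝ) := Nat.cast_nonneg _
          show |if n i = 1 then ((k i).choose 2 : ℝ) * ss (m i) p ^ 2 else 0| ≤ _
          split_ifs
          · rw [abs_of_nonneg (by positivity)]
            nlinarith [mul_le_mul_of_nonneg_left h3 h5]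
          · rw [abs_zero]
            positivity)
    have h3 : (fun p (u : (Σ i, Mon (n i) (δ i)) → ZMod p) => (if n i = 1 then ((k i).choose 2 : ℝ) * ss (m i) p ^ 2 else 0) *
        (MM T (Pi.single i 2) p u - ∏ j, (gm ((Pi.single i 2 : Fin r → ℕ) j) : ℝ))) =
        fun p u => (if n i = 1 then ((k i).choose 2 : ℝ) * ss (m i) p ^ 2 else 0) * (ZZ (n i) (m i) (δ i) p (fun x => u ⟨i, x⟩) ^ 2 - 1) := by
      funext p u
      rw [gm_two i, MM_single, hT]
    rw [← h3]
    exact h2
  have h5 : ∀ i j : Fin r, Small (fun p (u : (Σ i, Mon (n i) (δ i)) → ZMod p) =>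
      (if i < j ∧ n i = 1 ∧ n j = 1 then (k i : ℝ) * k j * ss (m i) p * ss (m j) p else 0) *
        (ZZ (n i) (m i) (δ i) p (fun x => u ⟨i, x⟩) * ZZ (n j) (m j) (δ j) p (fun x => u ⟨j, x⟩))) := by
    intro i j
    by_cases hij : i < j
    · have hne : i ≠ j := ne_of_lt hij
      have h2 := (small_MM hN (Pi.single i 1 + Pi.single j 1) (fun l => by
        rw [Pi.add_apply]
        have a1 : (Pi.single i 1 : Fin r → ℕ) l ≤ 1 := by
          by_cases hj : l = i
          · subst hj
            rw [Pi.single_eq_same]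
          · rw [Pi.single_eq_of_ne hj]
            omega
        have a2 : (Pi.single j 1 : Fin r → ℕ) l ≤ 1 := by
          by_cases hj : l = j
          · subst hj
            rw [Pi.single_eq_same]
          · rw [Pi.single_eq_of_ne hj]
            omega
        omega)).smul (fun p => if i < j ∧ n i = 1 ∧ n j = 1 then (k i : ℝ) * k j * ss (m i) p * ss (m j) p else 0)
          ((k i : ℝ) * k j * (m i) * (m j) + 1) (by
          have : (0 : ℝ) ≤ (k i : ℝ) * k j * (m i) * (m j) := by positivity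
          linarith) (fun p => by
          have a3 := ss_le (m i) p (by have := hm i; omega)
          have a4 := ss_nonneg (m i) p
          have b3 := ss_le (m j) p (by have := hm j; omega)
          have b4 := ss_nonneg (m j) p
          show |if i < j ∧ n i = 1 ∧ n j = 1 then (k i : ℝ) * k j * ss (m i) p * ss (m j) p else 0| ≤ _
          split_ifs
          · rw [abs_of_nonneg (by positivity)]
            have : (k i : ℝ) * k j * ss (m i) p * ss (m j) p ≤ (k i : ℝ) * k j * (m i) * (m j) := by gcongr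
            linarith
          · rw [abs_zero]
            positivity)
      have h3 : (fun p (u : (Σ i, Mon (n i) (δ i)) → ZMod p) => (if i < j ∧ n i = 1 ∧ n j = 1 then (k i : ℝ) * k j * ss (m i) p * ss (m j) p else 0) *
          (MM T (Pi.single i 1 + Pi.single j 1) p u - ∏ l, (gm ((Pi.single i 1 + Pi.single j 1 : Fin r → ℕ) l) : ℝ))) =
          fun p u => (if i < j ∧ n i = 1 ∧ n j = 1 then (k i : ℝ) * k j * ss (m i) p * ss (m j) p else 0) *
          (ZZ (n i) (m i) (δ i) p (fun x => u ⟨i, x⟩) * ZZ (n j) (m j) (δ j) p (fun x => u ⟨j, x⟩)) := by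
        funext p u
        rw [gm_one_zero _ i (by rw [Pi.add_apply, Pi.single_eq_same, Pi.single_eq_of_ne hne, add_zero]), sub_zero, MM_add, MM_single, MM_single,
          pow_one, pow_one, hT]
      rw [← h3]
      exact h2
    · have h3 : (fun p (u : (Σ i, Mon (n i) (δ i)) → ZMod p) => (if i < j ∧ n i = 1 ∧ n j = 1 then (k i : ℝ) * k j * ss (m i) p * ss (m j) p else 0) *
          (ZZ (n i) (m i) (δ i) p (fun x => u ⟨i, x⟩) * ZZ (n j) (m j) (δ j) p (fun x => u ⟨j, x⟩))) = fun p u => 0 := by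
        funext p u
        rw [if_neg fun h => hij h.1, zero_mul]
      rw [h3]
      exact small_zero
  unfold GG
  exact ((small_sum univ fun i _ => h1 i).add (small_sum univ fun i _ => h4 i)).add (small_sum univ fun i _ => small_sum univ fun j _ => h5 i j)

/-- the bad reductions -/
def BB (p : ℕ) : Set ((Σ i, Mon (n i) (δ i)) → ZMod p) := {u | ∃ i, (fun x => u ⟨i, x⟩) ∈ Bd (n i) (m i) (δ i) p}

theorem few_BB (hm : ∀ i, 2 ≤ m i) (hδ : ∀ i, 3 ≤ δ i) : ∃ (q₀ : ℕ) (C₀ : ℝ), FewBad (BB n m δ) q₀ C₀ :=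
  few_sigma (fun i => Bd (n i) (m i) (δ i)) fun i => few_bd (n i) (m i) (δ i) (hm i) (hδ i)

end main

end Pool.Agent.H25TT
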