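import Pool.Agent.Cov.PNT

set_option autoImplicit false

/-! The prime number theorem in arithmetic progressions for the Chebyshev sums, and the mean of `gcd (m, p - 1)`. -/

namespace Pool.Agent.H25TT

open Finset Filter Topology ArithmeticFunction

lemma th_eq (n : ℕ) : Chebyshev.theta (n : ℝ) = ∑ p ∈ (Ioc 0 n).filter Nat.Prime, Real.log p := by
  unfold Chebyshev.theta
  rw [Nat.floor_natCast]

lemma psi_eq (n : ℕ) : Chebyshev.psi (n : ℝ) = ∑ k ∈ Ioc 0 n, vonMangoldt k := by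
  unfold Chebyshev.psi
  rw [Nat.floor_natCast]

open Classical in
lemma theta_ap (d : ℕ) (hd : 1 ≤ d) :
    Tendsto (fun Y : ℕ => (Y : ℝ)⁻¹ * ∑ p ∈ (Ioc 0 Y).filter Nat.Prime, (if (p : ZMod d) = 1 then Real.log p else 0)) atTop (𝓝 ((d.totient : ℝ)⁻¹)) := by
  haveI : NeZero d := ⟨by omega⟩
  have h1 := (Pool.Agent.Cov.PNT.pnt_residueClass (q := d) (a := 1) isUnit_one).comp (tendsto_natCast_atTop_atTop (R := ℝ))
  have h2 := (Pool.Agent.Cov.PNT.psi_div_tendsto).comp (tendsto_natCast_atTop_atTop (R := ℝ))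
  have h3 := (Pool.Agent.Cov.PNT.theta_div_tendsto).comp (tendsto_natCast_atTop_atTop (R := ℝ))
  have h4 := h2.sub h3
  rw [sub_self] at h4
  have hR : ∀ Y : ℕ, ∑ k ∈ Icc 1 ⌊(Y : ℝ)⌋₊, vonMangoldt.residueClass (1 : ZMod d) k = ∑ k ∈ Ioc 0 Y, vonMangoldt.residueClass (1 : ZMod d) k := by
    intro Y
    rw [Nat.floor_natCast]
    rfl
  have h5 : Tendsto (fun Y : ℕ => (∑ k ∈ Ioc 0 Y, vonMangoldt.residueClass (1 : ZMod d) k) / (Y : ℝ) -
      (Y : ℝ)⁻¹ * ∑ p ∈ (Ioc 0 Y).filter Nat.Prime, (if (p : ZMod d) = 1 then Real.log p else 0)) atTop (𝓝 0) := by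
    have hb : ∀ Y : ℕ, 0 ≤ (∑ k ∈ Ioc 0 Y, vonMangoldt.residueClass (1 : ZMod d) k) - ∑ p ∈ (Ioc 0 Y).filter Nat.Prime, (if (p : ZMod d) = 1 then Real.log p else 0) ∧
        (∑ k ∈ Ioc 0 Y, vonMangoldt.residueClass (1 : ZMod d) k) - ∑ p ∈ (Ioc 0 Y).filter Nat.Prime, (if (p : ZMod d) = 1 then Real.log p else 0) ≤
          Chebyshev.psi Y - Chebyshev.theta Y := by
      intro Y
      rw [th_eq, psi_eq, sum_filter, sum_filter, ← sum_sub_distrib, ← sum_sub_distrib]
      have hk : ∀ k : ℕ, vonMangoldt.residueClass (1 : ZMod d) k = if (k : ZMod d) = 1 then vonMangoldt k else 0 := by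
        intro k
        unfold vonMangoldt.residueClass
        rw [Set.indicator_apply]
        rfl
      constructor
      · refine sum_nonneg fun k _ => ?_
        rw [hk]
        by_cases hp : k.Prime
        · rw [if_pos hp, vonMangoldt_apply_prime hp, sub_self]
        · rw [if_neg hp, sub_zero]
          split_ifs
          · exact vonMangoldt_nonneg
          · exact le_rfl
      · refine sum_le_sum fun k _ => ?_
        rw [hk]
        by_cases hp : k.Prime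
        · rw [if_pos hp, if_pos hp, vonMangoldt_apply_prime hp, sub_self, sub_self]
        · rw [if_neg hp, if_neg hp, sub_zero, sub_zero]
          split_ifs
          · exact le_rfl
          · exact vonMangoldt_nonneg
    refine squeeze_zero (fun Y => ?_) (fun Y => ?_) h4
    · have := (hb Y).1
      have e : (∑ k ∈ Ioc 0 Y, vonMangoldt.residueClass (1 : ZMod d) k) / (Y : ℝ) -
          (Y : ℝ)⁻¹ * ∑ p ∈ (Ioc 0 Y).filter Nat.Prime, (if (p : ZMod d) = 1 then Real.log p else 0) =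
          (Y : ℝ)⁻¹ * ((∑ k ∈ Ioc 0 Y, vonMangoldt.residueClass (1 : ZMod d) k) - ∑ p ∈ (Ioc 0 Y).filter Nat.Prime, (if (p : ZMod d) = 1 then Real.log p else 0)) := by
        rw [div_eq_mul_inv]
        ring
      rw [e]
      positivity
    · have := (hb Y).2
      have e : (∑ k ∈ Ioc 0 Y, vonMangoldt.residueClass (1 : ZMod d) k) / (Y : ℝ) -
          (Y : ℝ)⁻¹ * ∑ p ∈ (Ioc 0 Y).filter Nat.Prime, (if (p : ZMod d) = 1 then Real.log p else 0) =
          (Y : ℝ)⁻¹ * ((∑ k ∈ Ioc 0 Y, vonMangoldt.residueClass (1 : ZMod d) k) - ∑ p ∈ (Ioc 0 Y).filter Nat.Prime, (if (p : ZMod d) = 1 then Real.log p else 0)) := by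
        rw [div_eq_mul_inv]
        ring
      rw [e]
      show _ ≤ Chebyshev.psi Y / Y - Chebyshev.theta Y / Y
      rw [← sub_div, div_eq_mul_inv, mul_comm (Chebyshev.psi Y - Chebyshev.theta Y)]
      exact mul_le_mul_of_nonneg_left this (by positivity)
  have h6 := h1.sub h5
  rw [sub_zero] at h6
  refine h6.congr fun Y => ?_
  simp only [Function.comp]
  rw [hR]
  ring

/-- the mean of `gcd (m, p - 1)` over the primes is the number of the divisors of `m` -/
theorem gcd_mean (m : ℕ) (hm : 1 ≤ m) :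
    Tendsto (fun Y : ℕ => (Y : ℝ)⁻¹ * ∑ p ∈ (Ioc 0 Y).filter Nat.Prime, (Nat.gcd m (p - 1) : ℝ) * Real.log p) atTop (𝓝 (m.divisors.card : ℝ)) := by
  classical
  have h1 : Tendsto (fun Y : ℕ => ∑ d ∈ m.divisors, (d.totient : ℝ) *
      ((Y : ℝ)⁻¹ * ∑ p ∈ (Ioc 0 Y).filter Nat.Prime, (if (p : ZMod d) = 1 then Real.log p else 0))) atTop
      (𝓝 (∑ d ∈ m.divisors, (d.totient : ℝ) * (d.totient : ℝ)⁻¹)) := by
    refine tendsto_finset_sum _ fun d hd => ?_
    exact (theta_ap d (Nat.pos_of_mem_divisors hd)).const_mul _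
  have h2 : ∑ d ∈ m.divisors, (d.totient : ℝ) * (d.totient : ℝ)⁻¹ = m.divisors.card := by
    rw [card_eq_sum_ones, Nat.cast_sum]
    refine sum_congr rfl fun d hd => ?_
    have : (d.totient : ℝ) ≠ 0 := by
      exact_mod_cast (Nat.totient_pos.2 (Nat.pos_of_mem_divisors hd)).ne'
    rw [mul_inv_cancel₀ this, Nat.cast_one]
  rw [h2] at h1
  refine h1.congr fun Y => ?_
  have h3 : ∀ d ∈ m.divisors, (d.totient : ℝ) * ((Y : ℝ)⁻¹ * ∑ p ∈ (Ioc 0 Y).filter Nat.Prime, (if (p : ZMod d) = 1 then Real.log p else 0)) =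
      (Y : ℝ)⁻¹ * ∑ p ∈ (Ioc 0 Y).filter Nat.Prime, (d.totient : ℝ) * (if (p : ZMod d) = 1 then Real.log p else 0) := by
    intro d _
    rw [← mul_sum]
    ring
  rw [sum_congr rfl h3, ← mul_sum, sum_comm]
  congr 1
  refine sum_congr rfl fun p hp => ?_
  rw [mem_filter] at hp
  have hg : (Nat.gcd m (p - 1) : ℝ) = ∑ d ∈ m.divisors, if (p : ZMod d) = 1 then (d.totient : ℝ) else 0 := by
    have h4 := Nat.sum_totient (Nat.gcd m (p - 1))
    rw [← h4, Nat.cast_sum, ← sum_filter]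
    refine sum_congr ?_ fun _ _ => rfl
    ext d
    rw [Nat.mem_divisors, mem_filter, Nat.mem_divisors]
    have h5 : (p : ZMod d) = 1 ↔ d ∣ p - 1 := by
      have h6 := (ZMod.natCast_eq_natCast_iff' p 1 d)
      rw [Nat.cast_one] at h6
      rw [h6]
      have h7 : p % d = 1 % d ↔ p ≡ 1 [MOD d] := Iff.rfl
      rw [h7]
      constructor
      · intro h
        exact (Nat.modEq_iff_dvd' hp.2.one_lt.le).1 h.symm
      · intro h
        exact ((Nat.modEq_iff_dvd' hp.2.one_lt.le).2 h).symm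
    rw [h5, Nat.dvd_gcd_iff]
    have hg0 : Nat.gcd m (p - 1) ≠ 0 := (Nat.gcd_pos_of_pos_left _ hm).ne'
    constructor
    · rintro ⟨⟨a, b⟩, _⟩
      exact ⟨⟨a, by omega⟩, b⟩
    · rintro ⟨⟨a, _⟩, b⟩
      exact ⟨⟨a, b⟩, hg0⟩
  rw [hg, sum_mul]
  refine sum_congr rfl fun d _ => ?_
  split_ifs <;> ring

end Pool.Agent.H25TT
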