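import Pool.Agent.H41N.MD.Law

set_option autoImplicit false
set_option linter.unusedSectionVars false

/-! Local functions with small mean values and bounded second moments, and their sums with the weight `log p`. -/

namespace Pool.Agent.H25TT

open Finset
open Q282.CL
open Q282.GK (kbox)
open Q285HS (FewBad IV lln)

variable {κ : Type} [Fintype κ] [DecidableEq κ]

/-- small mean values and bounded second moments -/
def Small (G : (p : ℕ) → (κ → ZMod p) → ℝ) : Prop :=
  ∃ (K : ℝ) (β p₀ : ℕ), 1 ≤ K ∧ (∀ p : ℕ, p.Prime → ∀ u, |G p u| ≤ K * (p : ℝ) ^ β) ∧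
    (∀ p : ℕ, p.Prime → p₀ ≤ p → |mn G p| ≤ K / Real.sqrt p) ∧ (∀ p : ℕ, p.Prime → p₀ ≤ p → mn (fun p u => G p u ^ 2) p ≤ K)

lemma mn_add (G G' : (p : ℕ) → (κ → ZMod p) → ℝ) (p : ℕ) (hp : p.Prime) : mn (fun p u => G p u + G' p u) p = mn G p + mn G' p := by
  have : Fact p.Prime := ⟨hp⟩
  rw [mn_eq, mn_eq, mn_eq]
  exact av_add _ _

lemma mn_mono (G G' : (p : ℕ) → (κ → ZMod p) → ℝ) (p : ℕ) (hp : p.Prime) (h : ∀ u, G p u ≤ G' p u) : mn G p ≤ mn G' p := by
  have : Fact p.Prime := ⟨hp⟩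
  rw [mn_eq, mn_eq]
  exact av_mono h

lemma mn_smul (c : ℕ → ℝ) (G : (p : ℕ) → (κ → ZMod p) → ℝ) (p : ℕ) (hp : p.Prime) : mn (fun p u => c p * G p u) p = c p * mn G p := by
  have : Fact p.Prime := ⟨hp⟩
  rw [mn_eq, mn_eq]
  exact av_mul _ _

lemma Small.add {G G' : (p : ℕ) → (κ → ZMod p) → ℝ} (h : Small G) (h' : Small G') : Small (fun p u => G p u + G' p u) := by
  obtain ⟨K, β, p₀, hK, h1, h2, h3⟩ := h
  obtain ⟨K', β', p₀', hK', h1', h2', h3'⟩ := h'
  refine ⟨2 * (K + K'), max β β', max p₀ p₀', by linarith, fun p hp u => ?_, fun p hp hpp => ?_, fun p hp hpp => ?_⟩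
  · have hp1 : (1 : ℝ) ≤ p := by exact_mod_cast hp.one_lt.le
    have e1 : (p : ℝ) ^ β ≤ (p : ℝ) ^ (max β β') := pow_le_pow_right₀ hp1 (le_max_left _ _)
    have e2 : (p : ℝ) ^ β' ≤ (p : ℝ) ^ (max β β') := pow_le_pow_right₀ hp1 (le_max_right _ _)
    have e3 : 0 ≤ (p : ℝ) ^ (max β β') := by positivity
    have a1 := h1 p hp u
    have a2 := h1' p hp u
    have b1 := mul_le_mul_of_nonneg_left e1 (by linarith : 0 ≤ K)
    have b2 := mul_le_mul_of_nonneg_left e2 (by linarith : 0 ≤ K')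
    refine (abs_add_le _ _).trans ?_
    nlinarith [mul_nonneg (by linarith : 0 ≤ K) e3, mul_nonneg (by linarith : 0 ≤ K') e3]
  · rw [mn_add _ _ p hp]
    have a1 := h2 p hp ((le_max_left _ _).trans hpp)
    have a2 := h2' p hp ((le_max_right _ _).trans hpp)
    have hs : 0 < Real.sqrt p := Real.sqrt_pos.2 (by exact_mod_cast hp.pos)
    have e1 : 2 * (K + K') / Real.sqrt p = 2 * (K / Real.sqrt p) + 2 * (K' / Real.sqrt p) := by ring
    have e2 : 0 ≤ K / Real.sqrt p := by positivity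
    have e3 : 0 ≤ K' / Real.sqrt p := by positivity
    rw [e1]
    refine (abs_add_le _ _).trans ?_
    linarith
  · have a1 := h3 p hp ((le_max_left _ _).trans hpp)
    have a2 := h3' p hp ((le_max_right _ _).trans hpp)
    have e1 : mn (fun p u => (G p u + G' p u) ^ 2) p ≤ mn (fun p u => (fun _ => (2 : ℝ)) p * G p u ^ 2 + (fun _ => (2 : ℝ)) p * G' p u ^ 2) p := by
      refine mn_mono _ _ p hp fun u => ?_
      nlinarith [sq_nonneg (G p u - G' p u)]
    rw [mn_add _ _ p hp, mn_smul (fun _ => (2 : ℝ)) (fun p u => G p u ^ 2) p hp, mn_smul (fun _ => (2 : ℝ)) (fun p u => G' p u ^ 2) p hp] at e1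
    refine e1.trans ?_
    show 2 * _ + 2 * _ ≤ _
    linarith

lemma small_zero : Small (fun (p : ℕ) (_ : κ → ZMod p) => (0 : ℝ)) := by
  refine ⟨1, 0, 0, le_rfl, fun p hp u => by simp, fun p hp _ => ?_, fun p hp _ => ?_⟩
  · have : Fact p.Prime := ⟨hp⟩
    rw [mn_eq, av_const, abs_zero]
    positivity
  · have : Fact p.Prime := ⟨hp⟩
    rw [mn_eq]
    simp only [ne_eq, OfNat.ofNat_ne_zero, not_false_eq_true, zero_pow]
    rw [av_const]
    norm_num

lemma Small.smul {G : (p : ℕ) → (κ → ZMod p) → ℝ} (h : Small G) (c : ℕ → ℝ) (M : ℝ) (hM : 1 ≤ M) (hc : ∀ p, |c p| ≤ M) :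
    Small (fun p u => c p * G p u) := by
  obtain ⟨K, β, p₀, hK, h1, h2, h3⟩ := h
  have hKM : 1 ≤ M ^ 2 * K := by nlinarith [sq_nonneg (M - 1)]
  refine ⟨M ^ 2 * K, β, p₀, hKM, fun p hp u => ?_, fun p hp hpp => ?_, fun p hp hpp => ?_⟩
  · rw [abs_mul]
    have a1 := mul_le_mul (hc p) (h1 p hp u) (abs_nonneg _) (by linarith)
    have e3 : 0 ≤ K * (p : ℝ) ^ β := by positivity
    nlinarith [mul_le_mul_of_nonneg_right (by nlinarith : M ≤ M ^ 2) e3]
  · rw [mn_smul c G p hp, abs_mul]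
    have hs : 0 < Real.sqrt p := Real.sqrt_pos.2 (by exact_mod_cast hp.pos)
    have a1 := mul_le_mul (hc p) (h2 p hp hpp) (abs_nonneg _) (by linarith)
    have e3 : 0 ≤ K / Real.sqrt p := by positivity
    have e4 : M ^ 2 * K / Real.sqrt p = M ^ 2 * (K / Real.sqrt p) := by ring
    rw [e4]
    nlinarith [mul_le_mul_of_nonneg_right (by nlinarith : M ≤ M ^ 2) e3]
  · have e1 : mn (fun p u => (c p * G p u) ^ 2) p = c p ^ 2 * mn (fun p u => G p u ^ 2) p := by
      rw [← mn_smul (fun p => c p ^ 2) (fun p u => G p u ^ 2) p hp]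
      congr 1
      funext p u
      ring
    rw [e1]
    have e2 : c p ^ 2 ≤ M ^ 2 := by
      rw [← sq_abs]
      exact pow_le_pow_left₀ (abs_nonneg _) (hc p) 2
    have e3 : 0 ≤ mn (fun p u => G p u ^ 2) p := by
      have : Fact p.Prime := ⟨hp⟩
      rw [mn_eq]
      exact div_nonneg (sum_nonneg fun _ _ => sq_nonneg _) (Nat.cast_nonneg _)
    exact mul_le_mul e2 (h3 p hp hpp) e3 (by positivity)

lemma small_sum {ι : Type} (s : Finset ι) {G : ι → (p : ℕ) → (κ → ZMod p) → ℝ} (h : ∀ i ∈ s, Small (G i)) :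
    Small (fun p u => ∑ i ∈ s, G i p u) := by
  classical
  induction s using Finset.induction_on with
  | empty =>
    simp only [sum_empty]
    exact small_zero
  | insert x s hx ih =>
    simp only [sum_insert hx]
    exact (h x (mem_insert_self _ _)).add (ih fun i hi => h i (mem_insert_of_mem hi))

open Classical in
lemma Small.good {G : (p : ℕ) → (κ → ZMod p) → ℝ} (h : Small G) (Bad : (p : ℕ) → Set (κ → ZMod p)) {q₀ : ℕ} {C₀ : ℝ} (hB : FewBad Bad q₀ C₀) :
    Small (fun p u => if u ∈ Bad p then 0 else G p u) := by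
  obtain ⟨K, β, p₀, hK, h1, h2, h3⟩ := h
  obtain ⟨C₁, hC₁⟩ : ∃ C₁ : ℝ, C₁ = |C₀| + 1 := ⟨_, rfl⟩
  have hC₁0 : 1 ≤ C₁ := by
    rw [hC₁]
    linarith [abs_nonneg C₀]
  have hCC : C₀ ≤ C₁ := by
    rw [hC₁]
    linarith [le_abs_self C₀]
  refine ⟨2 * K + C₁, β, max p₀ q₀, by linarith, fun p hp u => ?_, fun p hp hpp => ?_, fun p hp hpp => ?_⟩
  · show |if u ∈ Bad p then (0 : ℝ) else G p u| ≤ _
    split_ifs
    · rw [abs_zero]
      positivity
    · refine (h1 p hp u).trans (mul_le_mul_of_nonneg_right (by linarith) (by positivity))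
  · have : Fact p.Prime := ⟨hp⟩
    have hp0 : (0 : ℝ) < p := by exact_mod_cast hp.pos
    have hs : 0 < Real.sqrt p := Real.sqrt_pos.2 hp0
    have hss : Real.sqrt p * Real.sqrt p = p := Real.mul_self_sqrt hp0.le
    -- the mean over the bad ones
    have e1 : mn (fun p u => if u ∈ Bad p then 0 else G p u) p = mn G p - mn (fun p u => if u ∈ Bad p then G p u else 0) p := by
      have e2 : mn G p = mn (fun p u => (if u ∈ Bad p then 0 else G p u) + (if u ∈ Bad p then G p u else 0)) p := by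
        congr 1
        funext p u
        split_ifs <;> ring
      rw [e2, mn_add _ _ p hp]
      ring
    -- the arithmetic and geometric means
    have e3 : |mn (fun p u => if u ∈ Bad p then G p u else 0) p| ≤ (K + C₁) / Real.sqrt p := by
      have e4 : |mn (fun p u => if u ∈ Bad p then G p u else 0) p| ≤
          mn (fun p u => (fun p : ℕ => 1 / Real.sqrt p) p * G p u ^ 2 + (fun p : ℕ => Real.sqrt p) p * (if u ∈ Bad p then (1 : ℝ) else 0)) p := by
        rw [mn_eq, mn_eq]
        refine (abs_av_le _).trans (av_mono fun u => ?_)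
        split_ifs
        · show |G p u| ≤ 1 / Real.sqrt p * G p u ^ 2 + Real.sqrt p * 1
          have e5 : 1 / Real.sqrt p * G p u ^ 2 + Real.sqrt p * 1 = (G p u ^ 2 + p) / Real.sqrt p := by
            rw [eq_div_iff hs.ne', add_mul, mul_one, hss]
            congr 1
            field_simp
          rw [e5, le_div_iff₀ hs]
          have e6 : G p u ^ 2 = |G p u| ^ 2 := (sq_abs _).symm
          have e7 : (p : ℝ) = Real.sqrt p ^ 2 := by rw [pow_two, hss]
          rw [e6]
          nlinarith [sq_nonneg (|G p u| - Real.sqrt p), sq_nonneg (|G p u|), sq_nonneg (Real.sqrt p)]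
        · rw [abs_zero]
          show 0 ≤ 1 / Real.sqrt p * G p u ^ 2 + Real.sqrt p * 0
          positivity
      refine e4.trans ?_
      rw [mn_add _ _ p hp, mn_smul (fun p : ℕ => 1 / Real.sqrt p) (fun p u => G p u ^ 2) p hp,
        mn_smul (fun p : ℕ => Real.sqrt p) (fun p u => if u ∈ Bad p then (1 : ℝ) else 0) p hp]
      have e8 : mn (fun p u => if u ∈ Bad p then (1 : ℝ) else 0) p ≤ C₁ / p := by
        unfold mn
        rw [dif_pos hp, div_le_iff₀ (by positivity)]
        have e9 : (∑ u : κ → ZMod p, if u ∈ Bad p then (1 : ℝ) else 0) = ((Bad p).ncard : ℝ) := by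
          rw [sum_ite, sum_const_zero, add_zero, sum_const, nsmul_eq_mul, mul_one, Set.ncard_eq_toFinset_card', Set.toFinset]
          congr 2
          ext u
          simp
        rw [e9]
        refine (hB p hp ((le_max_right _ _).trans hpp)).trans ?_
        gcongr
      have e10 := h3 p hp ((le_max_left _ _).trans hpp)
      have e11 : 1 / Real.sqrt p * mn (fun p u => G p u ^ 2) p ≤ 1 / Real.sqrt p * K := mul_le_mul_of_nonneg_left e10 (by positivity)
      have e12 : Real.sqrt p * mn (fun p u => if u ∈ Bad p then (1 : ℝ) else 0) p ≤ Real.sqrt p * (C₁ / p) := mul_le_mul_of_nonneg_left e8 hs.le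
      have e13 : Real.sqrt p * (C₁ / p) = C₁ / Real.sqrt p := by
        rw [mul_div_assoc', div_eq_div_iff hp0.ne' hs.ne']
        calc Real.sqrt p * C₁ * Real.sqrt p = C₁ * (Real.sqrt p * Real.sqrt p) := by ring
          _ = _ := by rw [hss]
      rw [e13] at e12
      have e14 : (K + C₁) / Real.sqrt p = 1 / Real.sqrt p * K + C₁ / Real.sqrt p := by ring
      rw [e14]
      exact add_le_add e11 e12
    have e15 := h2 p hp ((le_max_left _ _).trans hpp)
    rw [e1]
    refine (abs_sub _ _).trans ?_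
    have e16 : (2 * K + C₁) / Real.sqrt p = K / Real.sqrt p + (K + C₁) / Real.sqrt p := by ring
    rw [e16]
    exact add_le_add e15 e3
  · refine (mn_mono _ (fun p u => G p u ^ 2) p hp fun u => ?_).trans ((h3 p hp ((le_max_left _ _).trans hpp)).trans (by linarith))
    show (if u ∈ Bad p then (0 : ℝ) else G p u) ^ 2 ≤ G p u ^ 2
    split_ifs
    · rw [zero_pow two_ne_zero]
      positivity
    · exact le_rfl

open Classical in
lemma small_bad (Bad : (p : ℕ) → Set (κ → ZMod p)) {q₀ : ℕ} {C₀ : ℝ} (hB : FewBad Bad q₀ C₀) :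
    Small (fun p u => if u ∈ Bad p then (1 : ℝ) else 0) := by
  obtain ⟨C₁, hC₁⟩ : ∃ C₁ : ℝ, C₁ = |C₀| + 1 := ⟨_, rfl⟩
  have hC₁0 : 1 ≤ C₁ := by
    rw [hC₁]
    linarith [abs_nonneg C₀]
  have hCC : C₀ ≤ C₁ := by
    rw [hC₁]
    linarith [le_abs_self C₀]
  have hmean : ∀ p : ℕ, p.Prime → q₀ ≤ p → 0 ≤ mn (fun p u => if u ∈ Bad p then (1 : ℝ) else 0) p ∧
      mn (fun p u => if u ∈ Bad p then (1 : ℝ) else 0) p ≤ C₁ / p := by
    intro p hp hpp
    have : Fact p.Prime := ⟨hp⟩
    have hp0 : (0 : ℝ) < p := by exact_mod_cast hp.pos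
    constructor
    · rw [mn_eq]
      exact div_nonneg (sum_nonneg fun _ _ => by split_ifs <;> norm_num) (Nat.cast_nonneg _)
    · unfold mn
      rw [dif_pos hp, div_le_iff₀ (by positivity)]
      have e9 : (∑ u : κ → ZMod p, if u ∈ Bad p then (1 : ℝ) else 0) = ((Bad p).ncard : ℝ) := by
        rw [sum_ite, sum_const_zero, add_zero, sum_const, nsmul_eq_mul, mul_one, Set.ncard_eq_toFinset_card', Set.toFinset]
        congr 2
        ext u
        simp
      rw [e9]
      refine (hB p hp hpp).trans ?_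
      gcongr
  refine ⟨C₁, 0, q₀, hC₁0, fun p hp u => ?_, fun p hp hpp => ?_, fun p hp hpp => ?_⟩
  · show |if u ∈ Bad p then (1 : ℝ) else 0| ≤ _
    split_ifs
    · rw [abs_one, pow_zero, mul_one]
      exact hC₁0
    · rw [abs_zero]
      positivity
  · obtain ⟨a, b⟩ := hmean p hp hpp
    rw [abs_of_nonneg a]
    refine b.trans ?_
    have hp1 : (1 : ℝ) ≤ p := by exact_mod_cast hp.one_lt.le
    have hs1 : 1 ≤ Real.sqrt p := Real.one_le_sqrt.2 hp1
    have hss : Real.sqrt p * Real.sqrt p = p := Real.mul_self_sqrt (by linarith)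
    refine div_le_div_of_nonneg_left (by linarith) (by linarith) ?_
    nlinarith
  · have e1 : mn (fun p u => (if u ∈ Bad p then (1 : ℝ) else 0) ^ 2) p = mn (fun p u => if u ∈ Bad p then (1 : ℝ) else 0) p := by
      congr 1
      funext p u
      split_ifs <;> norm_num
    rw [e1]
    refine ((hmean p hp hpp).2).trans ?_
    have hp1 : (1 : ℝ) ≤ p := by exact_mod_cast hp.one_lt.le
    exact div_le_self (by linarith) hp1

end Pool.Agent.H25TT
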